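import Mathlib

/-!
# Counting exponents
-/

set_option autoImplicit false

namespace Pool.Agent.H17.SR

open Finset Filter Topology

theorem exists_y (d p : ℕ) (hd : 3 ≤ d) (hp : 2 ≤ p) :
    ∃ y : ℝ, 0 < y ∧ y < 1 ∧ ∑ k ∈ range p, y ^ (d * k) < p * y ^ (p - 1) := by
  set g : ℝ → ℝ := fun y => ∑ k ∈ range p, y ^ (d * k) - p * y ^ (p - 1) with hg
  have hg1 : g 1 = 0 := by simp [hg]
  set c : ℝ := ∑ k ∈ range p, ((d * k : ℕ) : ℝ) * 1 ^ (d * k - 1) -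
    p * (((p - 1 : ℕ) : ℝ) * 1 ^ (p - 1 - 1)) with hc
  have hder : HasDerivAt g c 1 := by
    rw [hg, hc]
    refine HasDerivAt.sub ?_ ?_
    · exact HasDerivAt.fun_sum fun k _ => hasDerivAt_pow (d * k) (1 : ℝ)
    · exact (hasDerivAt_pow (p - 1) (1 : ℝ)).const_mul (p : ℝ)
  have hcpos : 0 < c := by
    rw [hc]
    simp only [one_pow, mul_one]
    have h1 : ((∑ k ∈ range p, d * k) * 2 : ℕ) = d * (p * (p - 1)) := by
      rw [← Finset.mul_sum, mul_assoc, Finset.sum_range_id_mul_two]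
    have h2 : (∑ k ∈ range p, ((d * k : ℕ) : ℝ)) * 2 = d * (p * ((p - 1 : ℕ) : ℝ)) := by
      exact_mod_cast h1
    have h3 : (0 : ℝ) < p * ((p - 1 : ℕ) : ℝ) := by
      have : 0 < p * (p - 1) := Nat.mul_pos (by omega) (by omega)
      exact_mod_cast this
    have h4 : (3 : ℝ) ≤ d := by exact_mod_cast hd
    nlinarith
  have h1 : ∀ᶠ y in 𝓝[<] (1 : ℝ), 0 < slope g 1 y :=
    (hder.tendsto_slope.mono_left (nhdsLT_le_nhdsNE _)).eventually (lt_mem_nhds hcpos)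
  have h2 : ∀ᶠ y in 𝓝[<] (1 : ℝ), 0 < y :=
    (nhdsWithin_le_nhds) (lt_mem_nhds one_pos)
  have h3 : ∀ᶠ y in 𝓝[<] (1 : ℝ), y < 1 := self_mem_nhdsWithin
  obtain ⟨y, hy1, hy2, hy3⟩ := (h1.and (h2.and h3)).exists
  refine ⟨y, hy2, hy3, ?_⟩
  rw [slope_def_field, hg1, sub_zero] at hy1
  have h5 : g y < 0 := by
    by_contra hcon
    push Not at hcon
    have := div_nonpos_of_nonneg_of_nonpos hcon (by linarith : y - 1 ≤ 0)
    linarith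
  rw [hg] at h5
  simp only at h5
  linarith

/-- the exponents of small degree -/
def small (d p s : ℕ) : Finset (Fin s → Fin p) :=
  univ.filter fun γ => d * ∑ i, (γ i : ℕ) ≤ s * (p - 1)

theorem small_card (d p s : ℕ) (y : ℝ) (hy0 : 0 < y) (hy1 : y < 1) :
    ((small d p s).card : ℝ) ≤ ((∑ k ∈ range p, y ^ (d * k)) / y ^ (p - 1)) ^ s := by
  rw [div_pow, le_div_iff₀ (by positivity), ← pow_mul, mul_comm (p - 1) s]
  have h1 : ((small d p s).card : ℝ) * y ^ (s * (p - 1)) ≤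
      ∑ γ ∈ small d p s, y ^ (d * ∑ i, (γ i : ℕ)) := by
    rw [← nsmul_eq_mul]
    refine Finset.card_nsmul_le_sum _ _ _ fun γ hγ => ?_
    exact pow_le_pow_of_le_one hy0.le hy1.le (Finset.mem_filter.1 hγ).2
  refine h1.trans ?_
  have h2 : ∑ γ ∈ small d p s, y ^ (d * ∑ i, (γ i : ℕ)) ≤
      ∑ γ : Fin s → Fin p, y ^ (d * ∑ i, (γ i : ℕ)) :=
    Finset.sum_le_sum_of_subset_of_nonneg (Finset.subset_univ _) fun γ _ _ => by positivity
  refine h2.trans (le_of_eq ?_)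
  have h3 : ∀ γ : Fin s → Fin p, y ^ (d * ∑ i, (γ i : ℕ)) = ∏ i, y ^ (d * (γ i : ℕ)) := by
    intro γ
    rw [Finset.mul_sum, Finset.prod_pow_eq_pow_sum]
  simp only [h3]
  rw [← Fin.sum_univ_eq_sum_range (fun k => y ^ (d * k))]
  have h4 : (∑ i : Fin p, y ^ (d * (i : ℕ))) ^ s = ∏ _j : Fin s, ∑ i : Fin p, y ^ (d * (i : ℕ)) := by
    simp
  rw [h4, Finset.prod_univ_sum, Fintype.piFinset_univ]

/-- the rate -/
theorem exists_rho (d p : ℕ) (hd : 3 ≤ d) (hp : 2 ≤ p) :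
    ∃ ρ : ℝ, 0 < ρ ∧ ρ < p ∧ ∀ s, ((small d p s).card : ℝ) ≤ ρ ^ s := by
  obtain ⟨y, hy0, hy1, hy⟩ := exists_y d p hd hp
  refine ⟨(∑ k ∈ range p, y ^ (d * k)) / y ^ (p - 1), ?_, ?_, fun s => small_card d p s y hy0 hy1⟩
  · have : 0 < ∑ k ∈ range p, y ^ (d * k) :=
      Finset.sum_pos (fun k _ => by positivity) (by simp; omega)
    positivity
  · rw [div_lt_iff₀ (by positivity)]
    exact hy

theorem exists_eps (p : ℕ) (ρ : ℝ) (h0 : 0 < ρ) (h1 : ρ < p) :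
    ∃ ε : ℝ, 0 < ε ∧ ρ ^ (1 + ε) < p := by
  have hc : ContinuousAt (fun x : ℝ => ρ ^ (1 + x)) 0 := by
    refine ContinuousAt.rpow continuousAt_const (by fun_prop) (Or.inl h0.ne')
  have h2 : ∀ᶠ x in 𝓝 (0 : ℝ), ρ ^ (1 + x) < p := by
    refine hc.eventually (gt_mem_nhds ?_)
    simpa using h1
  have h3 : ∀ᶠ x in 𝓝[>] (0 : ℝ), ρ ^ (1 + x) < p := nhdsWithin_le_nhds h2
  have h4 : ∀ᶠ x in 𝓝[>] (0 : ℝ), 0 < x := self_mem_nhdsWithin
  obtain ⟨x, hx1, hx2⟩ := (h3.and h4).exists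
  exact ⟨x, hx2, hx1⟩

theorem exists_s (d p : ℕ) (ρ ε κ : ℝ) (h0 : 0 < ρ) (hp : 0 < p) (h : ρ ^ (1 + ε) < p) :
    ∃ s : ℕ, κ * ((d : ℝ) * ρ ^ s) ^ (1 + ε) * 2 ^ d < (p : ℝ) ^ s := by
  have hq0 : 0 < ρ ^ (1 + ε) := Real.rpow_pos_of_pos h0 _
  have hp' : (0 : ℝ) < p := by exact_mod_cast hp
  set q := ρ ^ (1 + ε) with hq
  set C := κ * (d : ℝ) ^ (1 + ε) * 2 ^ d with hC
  have h1 : Tendsto (fun s : ℕ => C * (q / p) ^ s) atTop (𝓝 (C * 0)) :=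
    (tendsto_pow_atTop_nhds_zero_of_lt_one (by positivity) ((div_lt_one hp').2 h)).const_mul C
  rw [mul_zero] at h1
  obtain ⟨s, hs⟩ := (h1.eventually (gt_mem_nhds one_pos)).exists
  refine ⟨s, ?_⟩
  have h2 : ((d : ℝ) * ρ ^ s) ^ (1 + ε) = (d : ℝ) ^ (1 + ε) * q ^ s := by
    rw [Real.mul_rpow (by positivity) (by positivity), hq, ← Real.rpow_natCast, ← Real.rpow_natCast,
      ← Real.rpow_mul h0.le, ← Real.rpow_mul h0.le, mul_comm (s : ℝ)]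
  rw [h2]
  have h3 : C * (q / p) ^ s < 1 := hs
  rw [div_pow, ← mul_div_assoc, div_lt_one (by positivity)] at h3
  calc κ * ((d : ℝ) ^ (1 + ε) * q ^ s) * 2 ^ d = C * q ^ s := by rw [hC]; ring
    _ < _ := h3

end Pool.Agent.H17.SR
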