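import Mathlib

/-!
# Schmidt rank: definitions
-/

set_option autoImplicit false

namespace Pool.Agent.H17.SR

open MvPolynomial

/-- `P` is a sum of `r` products `Q i * R i` of polynomials of degree less than `d`. -/
def IsSumOfProducts {σ K : Type} [Field K] (d : ℕ) (P : MvPolynomial σ K) (r : ℕ) : Prop :=
  ∃ Q R : Fin r → MvPolynomial σ K, (∀ i, (Q i).totalDegree < d ∧ (R i).totalDegree < d) ∧
    P = ∑ i, Q i * R i

/-- `r` is the Schmidt rank of the polynomial `P` of degree `d` over the field `K`: the least `r`
such that `P` is a sum of `r` products of polynomials over `K` of degree less than `d`. -/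
def IsSchmidtRank {σ K : Type} [Field K] (d : ℕ) (P : MvPolynomial σ K) (r : ℕ) : Prop :=
  IsSumOfProducts d P r ∧ ∀ r', IsSumOfProducts d P r' → r ≤ r'

/-- `P` is a multilinear polynomial on the product of `d` spaces of dimension `n`: every monomial
contains exactly one variable (with exponent one) of each of the `d` groups of variables. -/
def IsMultilinear {d n : ℕ} {K : Type} [Field K] (P : MvPolynomial (Fin d × Fin n) K) : Prop :=
  ∀ m ∈ P.support, ∀ j : Fin d, ∑ i : Fin n, m (j, i) = 1

end Pool.Agent.H17.SR
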