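import Mathlib

/-!
# The field of rational functions over the field of its `p`-th powers
-/

set_option autoImplicit false

namespace Pool.Agent.H17.SR

open MvPolynomial Finset

variable (p : ℕ) [Fact p.Prime] (s : ℕ)

/-- the polynomial ring in `s` variables over the field with `p` elements -/
abbrev PolyR : Type := MvPolynomial (Fin s) (ZMod p)

/-- the rational function field in `s` variables over the field with `p` elements -/
abbrev RatL : Type := FractionRing (PolyR p s)

noncomputable instance : Field (RatL p s) := inferInstance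

instance charPL : CharP (RatL p s) p := charP_of_injective_algebraMap
  (IsFractionRing.injective (PolyR p s) (RatL p s)) p

/-- the subfield of `p`-th powers of the rational function field -/
noncomputable abbrev SubK : Subfield (RatL p s) := (frobenius (RatL p s) p).fieldRange

/-- the variables as elements of the field -/
noncomputable def tt (i : Fin s) : RatL p s := algebraMap (PolyR p s) (RatL p s) (X i)

/-- the monomials with exponents smaller than `p` -/
noncomputable def mon (α : Fin s → Fin p) : RatL p s := ∏ i, tt p s i ^ (α i : ℕ)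

/-- the exponent as a finitely supported function -/
noncomputable def ex (α : Fin s → Fin p) : Fin s →₀ ℕ :=
  Finsupp.equivFunOnFinite.symm (fun i => (α i : ℕ))

omit [Fact p.Prime] in
theorem ex_apply (α : Fin s → Fin p) (i : Fin s) : ex p s α i = α i := rfl

theorem mon_eq (α : Fin s → Fin p) :
    mon p s α = algebraMap (PolyR p s) (RatL p s) (monomial (ex p s α) 1) := by
  unfold mon tt
  rw [MvPolynomial.monomial_eq, Finsupp.prod_fintype _ _ (by simp)]
  simp [ex_apply]

theorem coeff_expand (f : PolyR p s) (α β : Fin s → Fin p) (n : Fin s →₀ ℕ) :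
    coeff (p • n + ex p s β) (monomial (ex p s α) 1 * f ^ p) = if α = β then coeff n f else 0 := by
  classical
  rw [← MvPolynomial.expand_zmod, coeff_monomial_mul']
  split_ifs with h1 h2 h2
  · subst h2
    rw [one_mul]
    simp only [add_tsub_cancel_right]
    rw [coeff_expand_smul _ (Fact.out : p.Prime).ne_zero]
  · rw [one_mul]
    obtain ⟨i, hi⟩ := Function.ne_iff.1 h2
    refine coeff_expand_of_not_dvd (i := i) _ ?_
    have h3 := h1 i
    simp only [Finsupp.coe_tsub, Finsupp.coe_add, Finsupp.coe_smul, Pi.sub_apply, Pi.add_apply,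
      Pi.smul_apply, smul_eq_mul, ex_apply] at h3 ⊢
    intro h4
    apply hi
    have ha := (α i).isLt
    have hb := (β i).isLt
    obtain ⟨k, hk⟩ := h4
    have h5 : p * n i + (β i : ℕ) = p * k + (α i : ℕ) := by omega
    have h6 : (p * n i + (β i : ℕ)) % p = (p * k + (α i : ℕ)) % p := by rw [h5]
    rw [Nat.mul_add_mod, Nat.mul_add_mod, Nat.mod_eq_of_lt ha, Nat.mod_eq_of_lt hb] at h6
    exact Fin.ext h6.symm
  · exact absurd (by subst h2; exact le_add_self) h1
  · rfl

theorem linInd : LinearIndependent (SubK p s) (mon p s) := by
  classical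
  rw [Fintype.linearIndependent_iff]
  intro g hg
  have h1 : ∀ γ, ∃ y : RatL p s, y ^ p = g γ := by
    intro γ
    obtain ⟨y, hy⟩ := (g γ).2
    exact ⟨y, hy⟩
  choose y hy using h1
  obtain ⟨b, hb⟩ := IsLocalization.exist_integer_multiples_of_finite
    (nonZeroDivisors (PolyR p s)) y
  choose f hf using hb
  have h2 : ∑ γ, monomial (ex p s γ) 1 * f γ ^ p = 0 := by
    apply IsFractionRing.injective (PolyR p s) (RatL p s)
    rw [map_zero, map_sum]
    have h3 : ∀ γ, algebraMap (PolyR p s) (RatL p s) (monomial (ex p s γ) 1 * f γ ^ p) =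
        (algebraMap (PolyR p s) (RatL p s) b) ^ p * ((g γ) • mon p s γ) := by
      intro γ
      rw [map_mul, map_pow, hf γ, ← mon_eq, Subfield.smul_def, smul_eq_mul, ← hy γ, Algebra.smul_def]
      ring
    simp only [h3]
    rw [← Finset.mul_sum, hg, mul_zero]
  intro β
  have h4 : f β = 0 := by
    ext n
    have h5 := congrArg (coeff (p • n + ex p s β)) h2
    rw [coeff_sum] at h5
    simp only [coeff_expand] at h5
    simpa using h5
  have h6 : y β = 0 := by
    have := hf β
    rw [h4, map_zero, Algebra.smul_def] at this
    rcases mul_eq_zero.1 this.symm with h | h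
    · exfalso
      have h7 := IsFractionRing.injective (PolyR p s) (RatL p s) (h.trans (map_zero _).symm)
      exact nonZeroDivisors.ne_zero b.2 h7
    · exact h
  apply Subtype.ext
  rw [← hy β, h6, zero_pow (Fact.out : p.Prime).ne_zero]
  rfl

/-- the `p`-th power as an element of the subfield -/
noncomputable def pw (y : RatL p s) : SubK p s := ⟨y ^ p, ⟨y, rfl⟩⟩

theorem pw_smul (y z : RatL p s) : pw p s y • z = y ^ p * z := rfl

theorem span_top : ⊤ ≤ Submodule.span (SubK p s) (Set.range (mon p s)) := by
  classical
  have h1 : ∀ f : PolyR p s, algebraMap (PolyR p s) (RatL p s) f ∈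
      Submodule.span (SubK p s) (Set.range (mon p s)) := by
    intro f
    induction f using MvPolynomial.induction_on' with
    | add f g hf hg => rw [map_add]; exact Submodule.add_mem _ hf hg
    | monomial m c =>
      have hc : (algebraMap (PolyR p s) (RatL p s) (C c)) ^ p =
          algebraMap (PolyR p s) (RatL p s) (C c) := by
        rw [← map_pow, ← map_pow, ZMod.pow_card]
      let α : Fin s → Fin p := fun i => ⟨m i % p, Nat.mod_lt _ (Fact.out : p.Prime).pos⟩
      let n : Fin s →₀ ℕ := Finsupp.equivFunOnFinite.symm fun i => m i / p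
      have hm : m = p • n + ex p s α := by
        ext i
        simp only [Finsupp.coe_add, Finsupp.coe_smul, Pi.add_apply, Pi.smul_apply, smul_eq_mul,
          ex_apply]
        exact (Nat.div_add_mod (m i) p).symm
      have h2 : algebraMap (PolyR p s) (RatL p s) (monomial m c) =
          pw p s (algebraMap (PolyR p s) (RatL p s) (monomial n c)) • mon p s α := by
        rw [pw_smul, mon_eq, ← map_pow, ← map_mul, monomial_pow,
          monomial_mul, ← hm, mul_one, ZMod.pow_card]
      rw [h2]
      exact Submodule.smul_mem _ _ (Submodule.subset_span ⟨α, rfl⟩)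
  intro z _
  obtain ⟨f, g, hg, rfl⟩ := IsFractionRing.div_surjective (A := PolyR p s) z
  have hg0 : algebraMap (PolyR p s) (RatL p s) g ≠ 0 := by
    intro h
    exact nonZeroDivisors.ne_zero hg
      (IsFractionRing.injective (PolyR p s) (RatL p s) (h.trans (map_zero _).symm))
  have h3 : algebraMap (PolyR p s) (RatL p s) f / algebraMap (PolyR p s) (RatL p s) g =
      pw p s (algebraMap (PolyR p s) (RatL p s) g)⁻¹ • algebraMap (PolyR p s) (RatL p s) (f * g ^ (p - 1)) := by
    rw [pw_smul, map_mul, map_pow]
    have : algebraMap (PolyR p s) (RatL p s) g ^ p =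
        algebraMap (PolyR p s) (RatL p s) g ^ (p - 1) * algebraMap (PolyR p s) (RatL p s) g := by
      rw [← pow_succ, Nat.sub_add_cancel (Fact.out : p.Prime).one_le]
    rw [inv_pow, this]
    field_simp
  rw [h3]
  exact Submodule.smul_mem _ _ (h1 _)

/-- the monomial basis -/
noncomputable def basis : Module.Basis (Fin s → Fin p) (SubK p s) (RatL p s) :=
  Module.Basis.mk (linInd p s) (span_top p s)

theorem basis_apply (α : Fin s → Fin p) : basis p s α = mon p s α := by
  unfold basis
  rw [Module.Basis.mk_apply]

end Pool.Agent.H17.SR
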