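import Pool.Agent.H17.SR.Defs

/-!
# The form `λ(x_1 ⋯ x_d)` of an algebra and the lower bound for its rank
-/

set_option autoImplicit false

namespace Pool.Agent.H17.SR

open MvPolynomial Finset

section form

variable {F A Γ : Type} [Field F] [CommRing A] [Algebra F A] [Fintype Γ]

/-- the multilinear form `l (x_1 * ... * x_d)`, where `x_j = ∑ γ, X (j, γ) e γ` -/
noncomputable def form (d : ℕ) (e : Γ → A) (l : A →ₗ[F] F) : MvPolynomial (Fin d × Γ) F :=
  ∑ α : Fin d → Γ, C (l (∏ j, e (α j))) * ∏ j, X (j, α j)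

/-- the `j`-th vector of a point -/
noncomputable def vec {d : ℕ} (e : Γ → A) (x : Fin d × Γ → F) (j : Fin d) : A :=
  ∑ γ, x (j, γ) • e γ

theorem eval_form (d : ℕ) (e : Γ → A) (l : A →ₗ[F] F) (x : Fin d × Γ → F) :
    eval x (form d e l) = l (∏ j, vec e x j) := by
  classical
  unfold form vec
  rw [Finset.prod_univ_sum, map_sum, map_sum]
  rw [Fintype.piFinset_univ]
  refine Finset.sum_congr rfl fun α _ => ?_
  have : ∏ j, x (j, α j) • e (α j) = (∏ j, x (j, α j)) • ∏ j, e (α j) := by
    rw [Finset.prod_smul]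
  rw [this, LinearMap.map_smul, (eval x).map_mul, eval_C, map_prod (eval x)]
  simp [mul_comm]

end form

section weights

variable {d : ℕ} {Γ : Type}

/-- the multidegree of the variables -/
def wt (jg : Fin d × Γ) : Fin d → ℕ := Pi.single jg.1 1

/-- the multidegree which is one on `S` and zero outside of `S` -/
def ind (S : Finset (Fin d)) : Fin d → ℕ := fun j => if j ∈ S then 1 else 0

theorem weight_wt [Fintype Γ] (m : Fin d × Γ →₀ ℕ) (j : Fin d) :
    Finsupp.weight (wt : Fin d × Γ → Fin d → ℕ) m j = ∑ γ, m (j, γ) := by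
  classical
  rw [Finsupp.weight_apply, Finsupp.sum_fintype _ _ (by simp)]
  rw [Finset.sum_apply, Fintype.sum_prod_type]
  simp only [wt, Pi.smul_apply, smul_eq_mul]
  rw [Finset.sum_eq_single j]
  · simp
  · intro b _ hb
    simp [hb.symm]
  · simp

theorem ind_inj {S T : Finset (Fin d)} (h : ind S = ind T) : S = T := by
  ext j
  have := congrFun h j
  simp only [ind] at this
  by_cases h1 : j ∈ S <;> by_cases h2 : j ∈ T <;> simp_all

theorem ind_add_compl (S : Finset (Fin d)) : ind S + ind Sᶜ = ind (univ : Finset (Fin d)) := by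
  funext j
  simp only [ind, Pi.add_apply, mem_compl, mem_univ, if_true]
  by_cases h : j ∈ S <;> simp [h]

/-- two multidegrees with sum one are complementary -/
theorem exists_ind {u v : Fin d → ℕ} (h : u + v = ind (univ : Finset (Fin d))) :
    ∃ S : Finset (Fin d), u = ind S ∧ v = ind Sᶜ := by
  classical
  refine ⟨univ.filter fun j => u j = 1, ?_, ?_⟩ <;> funext j <;>
    have := congrFun h j <;> simp only [ind, Pi.add_apply, mem_univ, if_true] at this ⊢ <;>
    simp only [mem_compl, mem_filter, mem_univ, true_and] <;> split_ifs <;> omega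

end weights

section component

variable {d : ℕ} {Γ F : Type} [Field F]

/-- the component of the multidegree given by `S` -/
noncomputable def comp (S : Finset (Fin d)) (Q : MvPolynomial (Fin d × Γ) F) :
    MvPolynomial (Fin d × Γ) F :=
  weightedHomogeneousComponent (wt : Fin d × Γ → Fin d → ℕ) (ind S) Q

theorem comp_hom (S : Finset (Fin d)) (Q : MvPolynomial (Fin d × Γ) F) :
    IsWeightedHomogeneous (wt : Fin d × Γ → Fin d → ℕ) (comp S Q) (ind S) :=
  weightedHomogeneousComponent_isWeightedHomogeneous _ Q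

theorem coeff_comp [DecidableEq (Fin d → ℕ)] (S : Finset (Fin d)) (Q : MvPolynomial (Fin d × Γ) F)
    (m : Fin d × Γ →₀ ℕ) :
    coeff m (comp S Q) =
      if Finsupp.weight (wt : Fin d × Γ → Fin d → ℕ) m = ind S then coeff m Q else 0 := by
  unfold comp
  rw [coeff_weightedHomogeneousComponent]

theorem comp_mul (Q R : MvPolynomial (Fin d × Γ) F) :
    comp univ (Q * R) = ∑ S : Finset (Fin d), comp S Q * comp Sᶜ R := by
  classical
  ext m
  rw [coeff_comp, coeff_sum]
  simp only [coeff_mul, coeff_comp]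
  rw [Finset.sum_comm]
  by_cases hm : Finsupp.weight (wt : Fin d × Γ → Fin d → ℕ) m = ind univ
  · rw [if_pos hm]
    refine Finset.sum_congr rfl fun ab hab => ?_
    have h1 : Finsupp.weight (wt : Fin d × Γ → Fin d → ℕ) ab.1 +
        Finsupp.weight (wt : Fin d × Γ → Fin d → ℕ) ab.2 = ind univ := by
      rw [← map_add, mem_antidiagonal.1 hab, hm]
    obtain ⟨S, hS1, hS2⟩ := exists_ind h1
    rw [Finset.sum_eq_single S]
    · rw [if_pos hS1, if_pos hS2]
    · intro T _ hT
      rw [if_neg, zero_mul]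
      intro h
      exact hT (ind_inj (h.symm.trans hS1))
    · simp
  · rw [if_neg hm]
    symm
    refine Finset.sum_eq_zero fun ab hab => Finset.sum_eq_zero fun S _ => ?_
    by_cases h1 : Finsupp.weight (wt : Fin d × Γ → Fin d → ℕ) ab.1 = ind S
    · by_cases h2 : Finsupp.weight (wt : Fin d × Γ → Fin d → ℕ) ab.2 = ind Sᶜ
      · exfalso
        apply hm
        rw [← mem_antidiagonal.1 hab, map_add, h1, h2, ind_add_compl]
      · rw [if_neg h2, mul_zero]
    · rw [if_neg h1, zero_mul]

theorem comp_univ_eq_zero [Fintype Γ] {Q : MvPolynomial (Fin d × Γ) F} (hQ : Q.totalDegree < d) :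
    comp univ Q = 0 := by
  classical
  ext m
  rw [coeff_comp, coeff_zero]
  split_ifs with h
  · apply coeff_eq_zero_of_totalDegree_lt
    refine lt_of_lt_of_eq hQ ?_
    have h1 : ∀ j, ∑ γ, m (j, γ) = 1 := by
      intro j
      rw [← weight_wt, h]
      simp [ind]
    have h2 : ∑ i ∈ m.support, m i = ∑ i, m i :=
      Finset.sum_subset (Finset.subset_univ _) (fun i _ hi => by simpa using hi)
    rw [h2, Fintype.sum_prod_type]
    simp [h1]
  · rfl

end component

section evaluation

variable {d : ℕ} {Γ F : Type} [Field F] [Fintype Γ]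

/-- replace the `j`-th vector of `x` by `v` -/
def upd (x : Fin d × Γ → F) (j : Fin d) (v : Γ → F) : Fin d × Γ → F :=
  fun i => if i.1 = j then v i.2 else x i

omit [Field F] [Fintype Γ] in
theorem upd_same (x : Fin d × Γ → F) (j : Fin d) (v : Γ → F) (γ : Γ) : upd x j v (j, γ) = v γ := by
  simp [upd]

omit [Field F] [Fintype Γ] in
theorem upd_ne (x : Fin d × Γ → F) {j k : Fin d} (h : k ≠ j) (v : Γ → F) (γ : Γ) :
    upd x j v (k, γ) = x (k, γ) := by
  simp [upd, h]

theorem weight_zero {m : Fin d × Γ →₀ ℕ} {S : Finset (Fin d)}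
    (h : Finsupp.weight (wt : Fin d × Γ → Fin d → ℕ) m = ind S) {j : Fin d} (hj : j ∉ S) (γ : Γ) :
    m (j, γ) = 0 := by
  have h1 := congrFun h j
  rw [weight_wt] at h1
  simp only [ind, hj, if_false] at h1
  exact (Finset.sum_eq_zero_iff.1 h1) γ (Finset.mem_univ _)

/-- a polynomial of multidegree `S` depends only on the vectors with index in `S` -/
theorem eval_congr {S : Finset (Fin d)} {q : MvPolynomial (Fin d × Γ) F}
    (hq : IsWeightedHomogeneous (wt : Fin d × Γ → Fin d → ℕ) q (ind S)) {x y : Fin d × Γ → F}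
    (h : ∀ j ∈ S, ∀ γ, x (j, γ) = y (j, γ)) : eval x q = eval y q := by
  classical
  rw [eval_eq', eval_eq']
  refine Finset.sum_congr rfl fun m hm => ?_
  congr 1
  refine Finset.prod_congr rfl fun i _ => ?_
  have hw := hq (mem_support_iff.1 hm)
  by_cases hi : i.1 ∈ S
  · rw [show x i = y i from h i.1 hi i.2]
  · have : m i = 0 := weight_zero hw hi i.2
    rw [this, pow_zero, pow_zero]

theorem prod_eq_sum {m : Γ → ℕ} (h : ∑ γ, m γ = 1) (v : Γ → F) :
    ∏ γ, v γ ^ m γ = ∑ γ, (m γ : F) * v γ := by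
  classical
  obtain ⟨g, hg⟩ : ∃ g, m g ≠ 0 := by
    by_contra hc
    push Not at hc
    simp [hc] at h
  have h0 : ∀ γ, γ ≠ g → m γ = 0 := by
    intro γ hγ
    have h2 : m g + m γ ≤ ∑ γ, m γ := by
      have := Finset.sum_le_sum_of_subset (f := m) (Finset.subset_univ {g, γ})
      rwa [Finset.sum_pair hγ.symm] at this
    omega
  have h1 : m g = 1 := by
    rw [Finset.sum_eq_single g (fun b _ hb => h0 b hb) (by simp)] at h
    exact h
  rw [Finset.prod_eq_single g (fun b _ hb => by rw [h0 b hb, pow_zero]) (by simp),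
    Finset.sum_eq_single g (fun b _ hb => by rw [h0 b hb]; simp) (by simp), h1]
  simp

/-- a polynomial of multidegree `S` is linear in the `j`-th vector for `j ∈ S` -/
theorem eval_linear {S : Finset (Fin d)} {q : MvPolynomial (Fin d × Γ) F}
    (hq : IsWeightedHomogeneous (wt : Fin d × Γ → Fin d → ℕ) q (ind S)) (x : Fin d × Γ → F)
    {j : Fin d} (hj : j ∈ S) : ∃ f : (Γ → F) →ₗ[F] F, ∀ v, eval (upd x j v) q = f v := by
  classical
  refine ⟨∑ m ∈ q.support, (coeff m q * ∏ k ∈ univ.erase j, ∏ γ, x (k, γ) ^ m (k, γ)) •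
    ∑ γ, (m (j, γ) : F) • LinearMap.proj γ, fun v => ?_⟩
  rw [eval_eq', LinearMap.sum_apply]
  refine Finset.sum_congr rfl fun m hm => ?_
  have hw := hq (mem_support_iff.1 hm)
  have h1 : ∑ γ, m (j, γ) = 1 := by
    rw [← weight_wt, hw]
    simp [ind, hj]
  rw [Fintype.prod_prod_type, ← Finset.mul_prod_erase univ _ (Finset.mem_univ j)]
  simp only [upd_same]
  rw [prod_eq_sum h1 v]
  have h2 : ∏ k ∈ univ.erase j, ∏ γ, upd x j v (k, γ) ^ m (k, γ) =
      ∏ k ∈ univ.erase j, ∏ γ, x (k, γ) ^ m (k, γ) := by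
    refine Finset.prod_congr rfl fun k hk => Finset.prod_congr rfl fun γ _ => ?_
    rw [upd_ne x (Finset.ne_of_mem_erase hk)]
  rw [h2]
  simp only [LinearMap.smul_apply, LinearMap.sum_apply, LinearMap.proj_apply, smul_eq_mul]
  ring

end evaluation

section core

variable {d : ℕ} {K L Γ I : Type} [Field K] [Field L] [Algebra K L] [Fintype Γ]

theorem core (e : Module.Basis Γ K L) (l : L →ₗ[K] K) (hl : l ≠ 0) (S : I → Finset (Fin d))
    (q r : I → MvPolynomial (Fin d × Γ) K)
    (hq : ∀ i, IsWeightedHomogeneous (wt : Fin d × Γ → Fin d → ℕ) (q i) (ind (S i)))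
    (hr : ∀ i, IsWeightedHomogeneous (wt : Fin d × Γ → Fin d → ℕ) (r i) (ind (S i)ᶜ)) :
    ∀ (n : ℕ) (T : Finset (Fin d)), T.card = n + 1 → ∀ (t : Finset I), t.card < Fintype.card Γ →
      ∀ x₀ : Fin d × Γ → K, (∀ j, j ∉ T → vec e x₀ j ≠ 0) →
      (∀ i ∈ t, (∃ j ∈ T, j ∈ S i) ∧ ∃ j ∈ T, j ∉ S i) →
      ¬ ∀ x : Fin d × Γ → K, (∀ j, j ∉ T → ∀ γ, x (j, γ) = x₀ (j, γ)) →
        l (∏ j, vec e x j) = ∑ i ∈ t, eval x (q i) * eval x (r i) := by
  classical
  intro n
  induction n with
  | zero =>
    intro T hT t _ x₀ hx₀ ht H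
    obtain ⟨j, rfl⟩ := Finset.card_eq_one.1 hT
    have ht0 : t = ∅ := by
      refine Finset.eq_empty_of_forall_notMem fun i hi => ?_
      obtain ⟨⟨a, ha, ha'⟩, b, hb, hb'⟩ := ht i hi
      rw [Finset.mem_singleton] at ha hb
      subst ha hb
      exact hb' ha'
    subst ht0
    apply hl
    apply LinearMap.ext
    intro z
    have hc : ∏ k ∈ univ.erase j, vec e x₀ k ≠ 0 := by
      rw [Finset.prod_ne_zero_iff]
      intro k hk
      exact hx₀ k (by simpa using Finset.ne_of_mem_erase hk)
    set c := ∏ k ∈ univ.erase j, vec e x₀ k with hcdef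
    have h1 := H (upd x₀ j fun γ => e.repr (c⁻¹ * z) γ) (by
      intro k hk γ
      rw [upd_ne x₀ (by simpa using hk)])
    rw [Finset.sum_empty, ← Finset.mul_prod_erase univ _ (Finset.mem_univ j)] at h1
    have h2 : vec e (upd x₀ j fun γ => e.repr (c⁻¹ * z) γ) j = c⁻¹ * z := by
      unfold vec
      simp only [upd_same]
      exact e.sum_repr _
    have h3 : ∏ k ∈ univ.erase j, vec e (upd x₀ j fun γ => e.repr (c⁻¹ * z) γ) k = c := by
      rw [hcdef]
      refine Finset.prod_congr rfl fun k hk => ?_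
      unfold vec
      refine Finset.sum_congr rfl fun γ _ => ?_
      rw [upd_ne x₀ (Finset.ne_of_mem_erase hk)]
    rw [h2, h3, mul_assoc, mul_comm z c, ← mul_assoc, inv_mul_cancel₀ hc, one_mul] at h1
    rw [h1]
    simp
  | succ n ih =>
    intro T hT t htc x₀ hx₀ ht H
    obtain ⟨j, hj⟩ : T.Nonempty := Finset.card_pos.1 (by omega)
    set T' := T.erase j with hT'
    have hT'c : T'.card = n + 1 := by
      rw [hT', Finset.card_erase_of_mem hj]; omega
    set t' := t.filter fun i => (∃ k ∈ T', k ∈ S i) ∧ ∃ k ∈ T', k ∉ S i with ht'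
    -- the functionals which have to vanish
    have hf : ∀ i : I, ∃ f : (Γ → K) →ₗ[K] K, i ∈ t → i ∉ t' → ∀ v, f v = 0 →
        eval (upd x₀ j v) (q i) = 0 ∧ (∀ k ∈ T', k ∉ S i) ∨
        eval (upd x₀ j v) (r i) = 0 ∧ (∀ k ∈ T', k ∈ S i) := by
      intro i
      by_cases hi : i ∈ t
      swap
      · exact ⟨0, fun h => absurd h hi⟩
      by_cases hi' : i ∈ t'
      · exact ⟨0, fun _ h => absurd hi' h⟩
      rw [ht', Finset.mem_filter] at hi'
      have hi2 : ¬ ((∃ k ∈ T', k ∈ S i) ∧ ∃ k ∈ T', k ∉ S i) := fun h => hi' ⟨hi, h⟩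
      rw [not_and_or] at hi2
      rcases hi2 with h | h
      · push Not at h
        have hjS : j ∈ S i := by
          obtain ⟨⟨a, ha, ha'⟩, _⟩ := ht i hi
          by_cases haj : a = j
          · rwa [← haj]
          · exact absurd ha' (h a (Finset.mem_erase.2 ⟨haj, ha⟩))
        obtain ⟨f, hf⟩ := eval_linear (hq i) x₀ hjS
        exact ⟨f, fun _ _ v hv => Or.inl ⟨by rw [hf, hv], h⟩⟩
      · push Not at h
        have hjS : j ∈ (S i)ᶜ := by
          obtain ⟨_, a, ha, ha'⟩ := ht i hi
          rw [Finset.mem_compl]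
          by_cases haj : a = j
          · rwa [← haj]
          · exact absurd (h a (Finset.mem_erase.2 ⟨haj, ha⟩)) ha'
        obtain ⟨f, hf⟩ := eval_linear (hr i) x₀ hjS
        exact ⟨f, fun _ _ v hv => Or.inr ⟨by rw [hf, hv], h⟩⟩
    choose f hf using hf
    obtain ⟨v, hv0, hv⟩ : ∃ v : Γ → K, v ≠ 0 ∧ ∀ i ∈ t, f i v = 0 := by
      have hlt : Module.finrank K (t → K) < Module.finrank K (Γ → K) := by
        simpa using htc
      have := LinearMap.ker_ne_bot_of_finrank_lt (f := LinearMap.pi fun i : t => f i) hlt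
      obtain ⟨v, hv, hv0⟩ := (Submodule.ne_bot_iff _).1 this
      refine ⟨v, hv0, fun i hi => ?_⟩
      have := congrFun (LinearMap.mem_ker.1 hv) ⟨i, hi⟩
      simpa using this
    refine ih T' hT'c t' ((Finset.card_filter_le _ _).trans_lt htc) (upd x₀ j v) ?_ ?_ ?_
    · intro k hk
      by_cases hkj : k = j
      · subst hkj
        intro h0
        apply hv0
        have : vec e (upd x₀ k v) k = ∑ γ, v γ • e γ := by
          unfold vec
          simp only [upd_same]
        rw [this] at h0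
        funext γ
        exact Fintype.linearIndependent_iff.1 e.linearIndependent v h0 γ
      · have : vec e (upd x₀ j v) k = vec e x₀ k := by
          unfold vec
          refine Finset.sum_congr rfl fun γ _ => ?_
          rw [upd_ne x₀ hkj]
        rw [this]
        exact hx₀ k fun h => hk (Finset.mem_erase.2 ⟨hkj, h⟩)
    · intro i hi
      exact (Finset.mem_filter.1 hi).2
    · intro x hx
      have hx1 : ∀ k, k ∉ T → ∀ γ, x (k, γ) = x₀ (k, γ) := by
        intro k hk γ
        have hkj : k ≠ j := fun h => hk (h ▸ hj)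
        rw [hx k (fun h => hk (Finset.mem_of_mem_erase h)) γ, upd_ne x₀ hkj]
      rw [H x hx1]
      symm
      refine Finset.sum_subset (Finset.filter_subset _ _) fun i hi hi' => ?_
      rcases hf i hi hi' v (hv i hi) with ⟨h1, h2⟩ | ⟨h1, h2⟩
      · rw [eval_congr (hq i) (y := upd x₀ j v), h1, zero_mul]
        intro k hk γ
        exact hx k (fun h => h2 k h hk) γ
      · rw [eval_congr (hr i) (y := upd x₀ j v), h1, mul_zero]
        intro k hk γ
        exact hx k (fun h => (Finset.mem_compl.1 hk) (h2 k h)) γ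

/-- **The lower bound.** -/
theorem lower (e : Module.Basis Γ K L) (l : L →ₗ[K] K) (hl : l ≠ 0) (hd : 1 ≤ d) {r : ℕ}
    (h : IsSumOfProducts d (form d e l) r) : Fintype.card Γ ≤ 2 ^ d * r := by
  classical
  obtain ⟨Q, R, hQR, hP⟩ := h
  by_contra hlt
  push Not at hlt
  -- the terms
  let I := Fin r × Finset (Fin d)
  let t : Finset I := univ.filter fun i => i.2 ≠ ∅ ∧ i.2 ≠ univ
  have htc : t.card < Fintype.card Γ := by
    refine lt_of_le_of_lt (Finset.card_le_univ _) ?_
    simp only [I, Fintype.card_prod, Fintype.card_fin, Fintype.card_finset]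
    rwa [mul_comm]
  have hhom : comp univ (form d e l) = form d e l := by
    unfold comp
    apply IsWeightedHomogeneous.weightedHomogeneousComponent_same
    unfold form
    refine IsWeightedHomogeneous.sum _ _ _ fun α _ => ?_
    refine IsWeightedHomogeneous.C_mul ?_ _
    have := IsWeightedHomogeneous.prod (w := (wt : Fin d × Γ → Fin d → ℕ)) (R := K) univ
      (fun j : Fin d => X (j, α j)) (fun j => wt (j, α j))
      (fun j _ => isWeightedHomogeneous_X K _ _)
    convert this using 1
    funext k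
    rw [Finset.sum_apply]
    simp [ind, wt, Pi.single_apply]
  have hform : form d e l = ∑ i ∈ t, comp i.2 (Q i.1) * comp i.2ᶜ (R i.1) := by
    rw [← hhom, hP]
    have h1 : comp univ (∑ i, Q i * R i) =
        ∑ i : Fin r, ∑ S : Finset (Fin d), comp S (Q i) * comp Sᶜ (R i) := by
      unfold comp
      rw [map_sum]
      exact Finset.sum_congr rfl fun i _ => comp_mul (Q i) (R i)
    rw [h1, ← Fintype.sum_prod_type (f := fun i : I => comp i.2 (Q i.1) * comp i.2ᶜ (R i.1))]
    symm
    refine Finset.sum_subset (Finset.subset_univ _) fun i _ hi => ?_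
    have hi' : i.2 = ∅ ∨ i.2 = univ := by
      by_contra hc
      push Not at hc
      exact hi (Finset.mem_filter.2 ⟨Finset.mem_univ _, hc.1.ne_empty, hc.2⟩)
    rcases hi' with hi' | hi'
    · rw [hi', Finset.compl_empty, comp_univ_eq_zero (hQR i.1).2, mul_zero]
    · rw [hi', comp_univ_eq_zero (hQR i.1).1, zero_mul]
  refine core e l hl (fun i : I => i.2) (fun i => comp i.2 (Q i.1)) (fun i => comp i.2ᶜ (R i.1))
    (fun i => comp_hom _ _) (fun i => comp_hom _ _) (d - 1) univ (by simp; omega) t htc 0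
    (fun j hj => absurd (Finset.mem_univ j) hj) ?_ ?_
  · intro i hi
    obtain ⟨h1, h2⟩ := (Finset.mem_filter.1 hi).2
    constructor
    · obtain ⟨a, ha⟩ := Finset.nonempty_iff_ne_empty.2 h1
      exact ⟨a, Finset.mem_univ _, ha⟩
    · by_contra hc
      push Not at hc
      exact h2 (Finset.eq_univ_iff_forall.2 fun a => hc a (Finset.mem_univ _))
  · intro x _
    rw [← eval_form, hform, map_sum]
    exact Finset.sum_congr rfl fun i _ => map_mul _ _ _

end core

end Pool.Agent.H17.SR
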