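import Pool.Agent.H17.SR.Upper
import Pool.Agent.H17.SR.Field
import Pool.Agent.H17.SR.Count

/-!
# The two ranks of the form
-/

set_option autoImplicit false

namespace Pool.Agent.H17.SR

open MvPolynomial Finset TensorProduct

theorem form_hom {d : ℕ} {F A Γ : Type} [Field F] [CommRing A] [Algebra F A] [Fintype Γ]
    (e : Γ → A) (l : A →ₗ[F] F) :
    IsWeightedHomogeneous (wt : Fin d × Γ → Fin d → ℕ) (form d e l) (ind univ) := by
  classical
  unfold form
  refine IsWeightedHomogeneous.sum _ _ _ fun α _ => ?_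
  refine IsWeightedHomogeneous.C_mul ?_ _
  have := IsWeightedHomogeneous.prod (w := (wt : Fin d × Γ → Fin d → ℕ)) (R := F) univ
    (fun j : Fin d => X (j, α j)) (fun j => wt (j, α j))
    (fun j _ => isWeightedHomogeneous_X F _ _)
  convert this using 1
  funext k
  rw [Finset.sum_apply]
  simp [ind, wt, Pi.single_apply]

theorem form_multilinear {d n : ℕ} {F A : Type} [Field F] [CommRing A] [Algebra F A]
    (e : Fin n → A) (l : A →ₗ[F] F) : IsMultilinear (form d e l) := by
  intro m hm j
  have := congrFun (form_hom e l (mem_support_iff.1 hm)) j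
  rw [weight_wt] at this
  simpa [ind] using this

/-- there is a Schmidt rank as soon as the polynomial is a sum of products -/
theorem exists_rank {σ K : Type} [Field K] {d : ℕ} {P : MvPolynomial σ K} {r : ℕ}
    (h : IsSumOfProducts d P r) : ∃ r', IsSchmidtRank d P r' ∧ r' ≤ r := by
  classical
  have hex : ∃ r, IsSumOfProducts d P r := ⟨r, h⟩
  exact ⟨Nat.find hex, ⟨Nat.find_spec hex, fun r' h' => Nat.find_min' hex h'⟩, Nat.find_min' hex h⟩

section closure

variable (p : ℕ) [Fact p.Prime] (s : ℕ)

instance charPK : CharP (SubK p s) p :=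
  (RingHom.charP_iff (algebraMap (SubK p s) (RatL p s)) (algebraMap (SubK p s) (RatL p s)).injective
    p).2 (charPL p s)

/-- the algebraic closure of the field of `p`-th powers -/
abbrev Clo : Type := AlgebraicClosure (SubK p s)

instance charPE : CharP (Clo p s) p :=
  charP_of_injective_algebraMap (algebraMap (SubK p s) (Clo p s)).injective p

/-- the algebra over the closure -/
abbrev AA : Type := Clo p s ⊗[SubK p s] RatL p s

instance charPA : CharP (AA p s) p :=
  charP_of_injective_algebraMap (algebraMap (Clo p s) (AA p s)).injective p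

theorem exists_root (i : Fin s) : ∃ b : Clo p s, b ^ p = algebraMap _ _ (pw p s (tt p s i)) :=
  IsAlgClosed.exists_pow_nat_eq _ (Fact.out : p.Prime).pos

/-- the root of the `i`-th variable in the closure -/
noncomputable def bb (i : Fin s) : Clo p s := (exists_root p s i).choose

theorem bb_pow (i : Fin s) : bb p s i ^ p = algebraMap _ _ (pw p s (tt p s i)) :=
  (exists_root p s i).choose_spec

/-- the nilpotent elements -/
noncomputable def eps (i : Fin s) : AA p s := 1 ⊗ₜ tt p s i - bb p s i ⊗ₜ 1

theorem eps_pow (i : Fin s) : eps p s i ^ p = 0 := by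
  unfold eps
  rw [sub_pow_char, Algebra.TensorProduct.tmul_pow, Algebra.TensorProduct.tmul_pow, one_pow,
    one_pow, bb_pow, sub_eq_zero, Algebra.algebraMap_eq_smul_one, TensorProduct.smul_tmul, pw_smul,
    mul_one]

/-- the monomials in the nilpotent elements -/
noncomputable def ff (γ : Fin s → Fin p) : AA p s := ∏ i, eps p s i ^ (γ i : ℕ)

/-- the matrix of the change of bases -/
noncomputable def MM (γ α : Fin s → Fin p) : Clo p s :=
  ∏ i, (((α i : ℕ).choose (γ i) : ℕ) : Clo p s) * bb p s i ^ ((α i : ℕ) - (γ i : ℕ))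

theorem change (α : Fin s → Fin p) :
    (1 : Clo p s) ⊗ₜ[SubK p s] mon p s α = ∑ γ, MM p s γ α • ff p s γ := by
  classical
  have h1 : (1 : Clo p s) ⊗ₜ[SubK p s] mon p s α =
      ∏ i, ((1 : Clo p s) ⊗ₜ[SubK p s] tt p s i) ^ (α i : ℕ) := by
    unfold mon
    have := _root_.map_prod (Algebra.TensorProduct.includeRight : RatL p s →ₐ[SubK p s] AA p s)
      (fun i => tt p s i ^ (α i : ℕ)) univ
    simp only [Algebra.TensorProduct.includeRight_apply] at this
    rw [this]
    refine Finset.prod_congr rfl fun i _ => ?_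
    rw [Algebra.TensorProduct.tmul_pow, one_pow]
  have h2 : ∀ i, (1 : Clo p s) ⊗ₜ[SubK p s] tt p s i = eps p s i + algebraMap _ (AA p s) (bb p s i) := by
    intro i
    unfold eps
    rw [Algebra.TensorProduct.algebraMap_apply, Algebra.algebraMap_self_apply, sub_add_cancel]
  have h3 : ∀ i, ((1 : Clo p s) ⊗ₜ[SubK p s] tt p s i) ^ (α i : ℕ) =
      ∑ k : Fin p, ((((α i : ℕ).choose (k : ℕ) : ℕ) : Clo p s) *
        bb p s i ^ ((α i : ℕ) - (k : ℕ))) • eps p s i ^ (k : ℕ) := by
    intro i
    rw [h2, add_pow, Fin.sum_univ_eq_sum_range (fun k => ((((α i : ℕ).choose k : ℕ) : Clo p s) *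
        bb p s i ^ ((α i : ℕ) - k)) • eps p s i ^ k) p]
    have h4 : ∀ k ∈ range ((α i : ℕ) + 1), eps p s i ^ k *
        algebraMap _ (AA p s) (bb p s i) ^ ((α i : ℕ) - k) * (((α i : ℕ).choose k : ℕ) : AA p s) =
        ((((α i : ℕ).choose k : ℕ) : Clo p s) * bb p s i ^ ((α i : ℕ) - k)) • eps p s i ^ k := by
      intro k _
      have h5 : ((((α i : ℕ).choose k : ℕ) : Clo p s) * bb p s i ^ ((α i : ℕ) - k)) •
          eps p s i ^ k = algebraMap _ (AA p s)
            ((((α i : ℕ).choose k : ℕ) : Clo p s) * bb p s i ^ ((α i : ℕ) - k)) * eps p s i ^ k :=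
        Algebra.smul_def (R := Clo p s) (A := AA p s) _ _
      rw [h5, map_mul, map_pow, map_natCast]
      ring
    rw [Finset.sum_congr rfl h4]
    refine Finset.sum_subset (fun k hk => ?_) (fun k _ hk => ?_)
    · have := (α i).isLt
      rw [Finset.mem_range] at hk ⊢
      omega
    · rw [Finset.mem_range, not_lt] at hk
      rw [Nat.choose_eq_zero_of_lt (by omega)]
      simp
  rw [h1]
  simp only [h3]
  rw [Finset.prod_univ_sum, Fintype.piFinset_univ]
  refine Finset.sum_congr rfl fun γ _ => ?_
  rw [Finset.prod_smul]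
  rfl

theorem prod_ff (d : ℕ) (γ : Fin d → Fin s → Fin p) (h : ∀ j, γ j ∉ small d p s) :
    d = 0 ∨ ∏ j, ff p s (γ j) = 0 := by
  classical
  rcases Nat.eq_zero_or_pos d with hd | hd
  · exact Or.inl hd
  right
  have h1 : ∀ j, s * (p - 1) < d * ∑ i, (γ j i : ℕ) := by
    intro j
    have := h j
    simpa [small] using this
  have h2 : ∃ i, p ≤ ∑ j, (γ j i : ℕ) := by
    by_contra hcon
    push Not at hcon
    have h3 : ∑ j, d * ∑ i, (γ j i : ℕ) ≤ d * (s * (p - 1)) := by
      rw [← Finset.mul_sum, Finset.sum_comm]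
      refine Nat.mul_le_mul_left _ ?_
      refine (Finset.sum_le_card_nsmul univ _ (p - 1) fun i _ => ?_).trans (by simp)
      have := hcon i
      omega
    have h4 : ∑ _j : Fin d, s * (p - 1) < ∑ j, d * ∑ i, (γ j i : ℕ) := by
      refine Finset.sum_lt_sum_of_nonempty ⟨⟨0, hd⟩, Finset.mem_univ _⟩ fun j _ => h1 j
    simp only [Finset.sum_const, Finset.card_univ, Fintype.card_fin, smul_eq_mul] at h4
    omega
  obtain ⟨i, hi⟩ := h2
  unfold ff
  rw [Finset.prod_comm]
  refine Finset.prod_eq_zero (Finset.mem_univ i) ?_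
  rw [Finset.prod_pow_eq_pow_sum]
  exact pow_eq_zero_of_le hi (eps_pow p s i)

end closure

/-- **The two ranks.** -/
theorem two_ranks (p : ℕ) [Fact p.Prime] (s d : ℕ) (hd : 2 ≤ d) :
    ∃ (n : ℕ) (P : MvPolynomial (Fin d × Fin n) (SubK p s)) (r r' : ℕ), IsMultilinear P ∧
      IsSchmidtRank d P r ∧
      IsSchmidtRank d (P.map (algebraMap (SubK p s) (AlgebraicClosure (SubK p s)))) r' ∧
      p ^ s ≤ 2 ^ d * r ∧ r' ≤ d * (small d p s).card := by
  classical
  let ι := Fintype.equivFin (Fin s → Fin p)
  let e := (basis p s).reindex ι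
  obtain ⟨l, hl⟩ : ∃ l : RatL p s →ₗ[SubK p s] SubK p s, l ≠ 0 := by
    refine ⟨(basis p s).coord (fun _ => ⟨0, (Fact.out : p.Prime).pos⟩), fun h => ?_⟩
    have h1 := LinearMap.congr_fun h (basis p s (fun _ => ⟨0, (Fact.out : p.Prime).pos⟩))
    simp at h1
  -- upper bound over the closure
  have hup : IsSumOfProducts d ((form d e l).map
      (algebraMap (SubK p s) (AlgebraicClosure (SubK p s)))) (d * (small d p s).card) := by
    rw [map_form]
    have hG : ((small d p s).map ι.toEmbedding).card = (small d p s).card := Finset.card_map _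
    rw [← hG]
    refine upper d hd (fun γ => (1 : Clo p s) ⊗ₜ[SubK p s] e γ) (fun i => ff p s (ι.symm i))
      (fun i j => MM p s (ι.symm i) (ι.symm j)) ?_ _ _ ?_
    · intro α
      have h1 : e α = mon p s (ι.symm α) := by
        rw [Module.Basis.reindex_apply, basis_apply]
      simp only [h1]
      rw [change]
      exact (Equiv.sum_comp ι.symm fun γ => MM p s γ (ι.symm α) • ff p s γ).symm
    · intro γ hγ
      have h2 : ∀ j, ι.symm (γ j) ∉ small d p s := by
        intro j hj
        apply hγ j
        rw [Finset.mem_map]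
        exact ⟨_, hj, by simp⟩
      rcases prod_ff p s d (fun j => ι.symm (γ j)) h2 with h3 | h3
      · omega
      · rw [h3, map_zero]
  obtain ⟨r', hr', hr'2⟩ := exists_rank hup
  -- the polynomial is a sum of products over the small field
  have hlo : IsSumOfProducts d (form d e l) (d * (univ : Finset (Fin (Fintype.card
      (Fin s → Fin p)))).card) := by
    refine upper d hd (fun γ => e γ) (fun γ => e γ) (fun i j => if i = j then 1 else 0) ?_ l _ ?_
    · intro α
      simp
    · intro γ hγ
      exact absurd (Finset.mem_univ _) (hγ ⟨0, by omega⟩)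
  obtain ⟨r, hr, -⟩ := exists_rank hlo
  refine ⟨_, form d e l, r, r', form_multilinear _ _, hr, hr', ?_, hr'2⟩
  have := lower e l hl (by omega) hr.1
  simpa using this

end Pool.Agent.H17.SR
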