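import Pool.Agent.H17.SR.Lower

/-!
# The upper bound for the rank of the form `λ(x_1 ⋯ x_d)` of an algebra
-/

set_option autoImplicit false

namespace Pool.Agent.H17.SR

open MvPolynomial Finset

theorem of_fintype {σ K I : Type} [Field K] [Fintype I] {d : ℕ} {P : MvPolynomial σ K}
    (Q R : I → MvPolynomial σ K) (hQR : ∀ i, (Q i).totalDegree < d ∧ (R i).totalDegree < d)
    (hP : P = ∑ i, Q i * R i) : IsSumOfProducts d P (Fintype.card I) := by
  classical
  refine ⟨fun i => Q ((Fintype.equivFin I).symm i), fun i => R ((Fintype.equivFin I).symm i),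
    fun i => hQR _, ?_⟩
  rw [hP]
  exact (Equiv.sum_comp (Fintype.equivFin I).symm fun i => Q i * R i).symm

variable {F A Γ : Type} [Field F] [CommRing A] [Algebra F A] [Fintype Γ]

/-- linear forms in the variables of one group -/
noncomputable def lin {d : ℕ} (M : Γ → Γ → F) (j : Fin d) (g : Γ) : MvPolynomial (Fin d × Γ) F :=
  ∑ α, C (M g α) * X (j, α)

theorem lin_totalDegree {d : ℕ} (M : Γ → Γ → F) (j : Fin d) (g : Γ) :
    (lin M j g).totalDegree ≤ 1 := by
  unfold lin
  refine totalDegree_finsetSum_le fun α _ => ?_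
  refine (totalDegree_mul _ _).trans ?_
  rw [totalDegree_C, totalDegree_X]

theorem form_change (d : ℕ) (e f : Γ → A) (M : Γ → Γ → F) (hM : ∀ α, e α = ∑ γ, M γ α • f γ)
    (l : A →ₗ[F] F) :
    form d e l = ∑ γ : Fin d → Γ, C (l (∏ j, f (γ j))) * ∏ j, lin M j (γ j) := by
  classical
  have h1 : ∀ α : Fin d → Γ, l (∏ j, e (α j)) =
      ∑ γ : Fin d → Γ, (∏ j, M (γ j) (α j)) * l (∏ j, f (γ j)) := by
    intro α
    simp only [hM]
    rw [Finset.prod_univ_sum, Fintype.piFinset_univ, map_sum]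
    refine Finset.sum_congr rfl fun γ _ => ?_
    rw [Finset.prod_smul, LinearMap.map_smul, smul_eq_mul]
  have h2 : ∀ γ : Fin d → Γ, ∏ j, lin M j (γ j) =
      ∑ α : Fin d → Γ, C (∏ j, M (γ j) (α j)) * ∏ j, X (j, α j) := by
    intro γ
    unfold lin
    rw [Finset.prod_univ_sum, Fintype.piFinset_univ]
    refine Finset.sum_congr rfl fun α _ => ?_
    rw [Finset.prod_mul_distrib, map_prod]
  simp only [h2, Finset.mul_sum]
  rw [Finset.sum_comm]
  unfold form
  refine Finset.sum_congr rfl fun α _ => ?_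
  rw [h1, map_sum, Finset.sum_mul]
  refine Finset.sum_congr rfl fun γ _ => ?_
  rw [map_mul]
  ring

/-- **The upper bound.** -/
theorem upper (d : ℕ) (hd : 2 ≤ d) (e f : Γ → A) (M : Γ → Γ → F)
    (hM : ∀ α, e α = ∑ γ, M γ α • f γ) (l : A →ₗ[F] F) (G : Finset Γ)
    (hG : ∀ γ : Fin d → Γ, (∀ j, γ j ∉ G) → l (∏ j, f (γ j)) = 0) :
    IsSumOfProducts d (form d e l) (d * G.card) := by
  classical
  have hcard : d * G.card = Fintype.card (Fin d × G) := by simp
  rw [hcard]
  have h2 : ∀ γ : Fin d → Γ, ∃ j : Fin d, (∃ k, γ k ∈ G) → γ j ∈ G := by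
    intro γ
    by_cases h : ∃ k, γ k ∈ G
    · exact ⟨h.choose, fun _ => h.choose_spec⟩
    · exact ⟨⟨0, by omega⟩, fun h' => absurd h' h⟩
  choose J hJ using h2
  refine of_fintype (fun i : Fin d × G => lin M i.1 i.2)
    (fun i : Fin d × G => ∑ γ ∈ univ.filter (fun γ : Fin d → Γ => J γ = i.1 ∧ γ i.1 = i.2),
      C (l (∏ j, f (γ j))) * ∏ j ∈ univ.erase i.1, lin M j (γ j)) (fun i => ⟨?_, ?_⟩) ?_
  · exact (lin_totalDegree M i.1 i.2).trans_lt (by omega)
  · refine lt_of_le_of_lt (b := d - 1) ?_ (by omega)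
    refine totalDegree_finsetSum_le fun γ _ => ?_
    refine (totalDegree_mul _ _).trans ?_
    rw [totalDegree_C, zero_add]
    refine (totalDegree_finsetProd _ _).trans ?_
    refine (Finset.sum_le_card_nsmul _ _ 1 fun j _ => lin_totalDegree M j (γ j)).trans ?_
    simp
  · rw [form_change d e f M hM l]
    have h3 : ∀ i : Fin d × G,
        lin M i.1 i.2 * ∑ γ ∈ univ.filter (fun γ : Fin d → Γ => J γ = i.1 ∧ γ i.1 = i.2),
          C (l (∏ j, f (γ j))) * ∏ j ∈ univ.erase i.1, lin M j (γ j) =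
        ∑ γ : Fin d → Γ, if J γ = i.1 ∧ γ i.1 = i.2 then
          C (l (∏ j, f (γ j))) * ∏ j, lin M j (γ j) else 0 := by
      intro i
      rw [Finset.mul_sum, Finset.sum_filter]
      refine Finset.sum_congr rfl fun γ _ => ?_
      split_ifs with h
      · rw [← Finset.mul_prod_erase univ (fun j => lin M j (γ j)) (Finset.mem_univ i.1), h.2]
        ring
      · rfl
    simp only [h3]
    rw [Finset.sum_comm]
    refine Finset.sum_congr rfl fun γ _ => ?_
    by_cases h : ∃ k, γ k ∈ G
    · rw [Finset.sum_eq_single (⟨J γ, ⟨γ (J γ), hJ γ h⟩⟩ : Fin d × G)]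
      · simp
      · rintro ⟨j, g⟩ _ hne
        rw [if_neg]
        rintro ⟨h4, h5⟩
        apply hne
        simp only at h4 h5
        subst h4
        ext <;> simp [h5]
      · simp
    · push Not at h
      rw [hG γ h]
      simp

open TensorProduct in
/-- the form of an algebra over an extension field -/
theorem map_form {K E L : Type} [Field K] [Field E] [Algebra K E] [CommRing L] [Algebra K L]
    (d : ℕ) (e : Γ → L) (l : L →ₗ[K] K) :
    MvPolynomial.map (algebraMap K E) (form d e l) =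
      form d (fun γ => (1 : E) ⊗ₜ[K] e γ)
        ((Algebra.TensorProduct.rid K E E).toLinearMap ∘ₗ l.baseChange E) := by
  classical
  unfold form
  rw [_root_.map_sum (MvPolynomial.map (algebraMap K E))]
  refine Finset.sum_congr rfl fun α _ => ?_
  have h : ∏ j, (1 : E) ⊗ₜ[K] e (α j) = (1 : E) ⊗ₜ[K] ∏ j, e (α j) := by
    have := _root_.map_prod (Algebra.TensorProduct.includeRight : L →ₐ[K] TensorProduct K E L)
      (fun j => e (α j)) univ
    simpa only [Algebra.TensorProduct.includeRight_apply] using this.symm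
  rw [h, (MvPolynomial.map (algebraMap K E)).map_mul,
    _root_.map_prod (MvPolynomial.map (algebraMap K E)), map_C]
  simp only [map_X]
  congr 2
  simp [Algebra.algebraMap_eq_smul_one]

end Pool.Agent.H17.SR
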